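import Pool.Agent.Lib.CDEN.Sound

/-! Completeness of the simulation. -/

set_option autoImplicit false

namespace CDEN

open CDER (Rev RevW)

variable {α σ : Type} {t : ℕ}

/-- exchange of the two sets of letters -/
def sw : Lt α → Lt α
  | .rd a => .rd a
  | .nA => .nB
  | .sA => .sB
  | .eA => .eB
  | .cA i => .cB i
  | .nB => .nA
  | .sB => .sA
  | .eB => .eA
  | .cB i => .cA i

theorem sw_sw (b : Lt α) : sw (sw b) = b := by cases b <;> rfl

theorem map_sw_sw (l : List (Lt α)) : (l.map sw).map sw = l := by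
  rw [List.map_map]
  have : (sw ∘ sw : Lt α → Lt α) = id := by funext b; exact sw_sw b
  rw [this, List.map_id]

theorem map_sw_AL {l : List (Lt α)} (h : ∀ b ∈ l, AL b) : ∀ b ∈ l.map sw, BL b := by
  intro b hb
  obtain ⟨c, hc, rfl⟩ := List.mem_map.1 hb
  have := h c hc
  cases c <;> first | exact this.elim | trivial

theorem rds_map_sw (l : List (Lt α)) : rds (l.map sw) = rds l := by
  unfold rds
  rw [List.flatMap_map]
  congr 1
  funext b
  cases b <;> rfl

theorem evalFrom_loop {β ρ : Type} {N : DFA β ρ} {P : β → Prop} (h : ∀ b s, P b → N.step s b = s)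
    (l : List β) (hl : ∀ b ∈ l, P b) (s : ρ) : N.evalFrom s l = s := by
  induction l with
  | nil => rfl
  | cons b l ih =>
    rw [DFA.evalFrom_cons, h b s (hl b (by simp))]
    exact ih fun b' hb' => hl b' (by simp [hb'])

/-- going down a chain -/
theorem chain_down {β ρ X : Type} [LinearOrder X] [Finite X] {C : X → X → Prop} (hC : Equivalence C)
    (N : DFA β ρ) (f : X → ρ) (b : β) (h : ∀ q r, IsPrv C q r → N.step (f q) b = f r) (p : X) :
    ∃ (k : ℕ) (r : X), N.evalFrom (f p) (List.replicate k b) = f r ∧ C r p ∧ ¬ ∃ r', IsPrv C r r' := by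
  have wf : WellFoundedLT X := Finite.to_wellFoundedLT
  induction p using wf.induction with
  | ind p ih =>
    by_cases h' : ∃ r', IsPrv C p r'
    · obtain ⟨r', hr'⟩ := h'
      obtain ⟨k, r, h1, h2, h3⟩ := ih r' hr'.1
      refine ⟨k + 1, r, ?_, hC.trans h2 hr'.2.1, h3⟩
      rw [List.replicate_succ, DFA.evalFrom_cons, h p r' hr']
      exact h1
    · exact ⟨0, p, rfl, hC.refl p, h'⟩

/-- from the last element of a class down to `q` -/
theorem chain_to {β ρ X : Type} [LinearOrder X] [Finite X] {C : X → X → Prop} (hC : Equivalence C)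
    (N : DFA β ρ) (f : X → ρ) (b : β) (h : ∀ q r, IsPrv C q r → N.step (f q) b = f r) (q : X) :
    ∀ r, IsLast (fun s => C s q) r → ∃ k : ℕ, N.evalFrom (f r) (List.replicate k b) = f q := by
  have wf : WellFoundedGT X := Finite.to_wellFoundedGT
  induction q using wf.induction with
  | ind q ih =>
    intro r hr
    by_cases h' : q = r
    · exact ⟨0, by rw [h']; rfl⟩
    · have hqr : q < r := lt_of_le_of_ne (hr.2 q (hC.refl q)) h'
      obtain ⟨s, hs, hmin⟩ := Set.exists_min_image {s | q < s ∧ C s q} id (Set.toFinite _)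
        ⟨r, hqr, hr.1⟩
      have hp : IsPrv C s q := by
        refine ⟨hs.1, hC.symm hs.2, fun t ht1 ht2 => ?_⟩
        by_contra hcon
        exact absurd (hmin t ⟨not_le.1 hcon, hC.trans ht2 hs.2⟩) (not_le.2 ht1)
      have hr' : IsLast (fun t => C t s) r :=
        ⟨hC.trans hr.1 (hC.symm hs.2), fun t ht => hr.2 t (hC.trans ht hs.2)⟩
      obtain ⟨k, hk⟩ := ih s hs.1 r hr'
      refine ⟨k + 1, ?_⟩
      rw [List.replicate_succ', DFA.evalFrom_append_singleton, hk]
      exact h s q hp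

/-- a path of an automaton over the new letters along the old word, `L` are its own letters -/
inductive Path {ρ : Type} (N : DFA (Lt α) ρ) (L : Lt α → Prop) : List α → ρ → ρ → Prop
  | nil (s : ρ) : Path N L [] s s
  | snoc (x w : List α) (a : α) (s s' s'' : ρ) (l : List (Lt α)) (h : Path N L x s s')
      (hl : ∀ b ∈ l, L b) (hw : w = x ++ [a]) (he : N.evalFrom s' (.rd a :: l) = s'') : Path N L w s s''

theorem path_two {ρ ρ' : Type} {N : DFA (Lt α) ρ} {N' : DFA (Lt α) ρ'}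
    (hN : ∀ b s, BL b → N.step s b = s) (hN' : ∀ b s, AL b → N'.step s b = s) {w : List α} {s s' : ρ}
    (h : Path N AL w s s') : ∀ {r r' : ρ'}, Path N' BL w r r' → ∃ y : List (Lt α),
    N.evalFrom s y = s' ∧ N'.evalFrom r y = r' := by
  induction h with
  | nil s =>
    intro r r' h'
    generalize hw : ([] : List α) = w at h'
    cases h' with
    | nil => exact ⟨[], rfl, rfl⟩
    | snoc x w a _ _ _ l h hl hw' he =>
      rw [← hw] at hw'
      exact absurd hw' (by simp)
  | snoc x w a s s' s'' l h hl hw he ih =>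
    intro r r' h'
    cases h' with
    | nil => exact absurd hw (by simp)
    | snoc x2 _ a2 _ r1 _ l2 h2 hl2 hw2 he2 =>
      rw [hw] at hw2
      obtain ⟨e1, e2⟩ := List.append_inj' hw2 rfl
      have e3 : a = a2 := by simpa using e2
      subst e1 e3
      obtain ⟨y, hy1, hy2⟩ := ih h2
      refine ⟨y ++ (.rd a :: (l ++ l2)), ?_, ?_⟩
      · rw [DFA.evalFrom_of_append, hy1, DFA.evalFrom_cons, DFA.evalFrom_of_append,
          evalFrom_loop hN l2 hl2, ← DFA.evalFrom_cons]
        exact he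
      · rw [DFA.evalFrom_of_append, hy2, DFA.evalFrom_cons, DFA.evalFrom_of_append,
          evalFrom_loop hN' l hl, ← DFA.evalFrom_cons]
        exact he2

theorem join {ρ ρ' : Type} {N : DFA (Lt α) ρ} {N' : DFA (Lt α) ρ'}
    (hN : ∀ b s, BL b → N.step s b = s) (hN' : ∀ b s, AL b → N'.step s b = s) {w : List α}
    (h : ∃ l0 l1 s s', (∀ b ∈ l0, AL b) ∧ (∀ b ∈ l1, AL b) ∧ N.evalFrom N.start l0 = s ∧
      Path N AL w s s' ∧ N.evalFrom s' l1 ∈ N.accept)
    (h' : ∃ l0 l1 s s', (∀ b ∈ l0, BL b) ∧ (∀ b ∈ l1, BL b) ∧ N'.evalFrom N'.start l0 = s ∧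
      Path N' BL w s s' ∧ N'.evalFrom s' l1 ∈ N'.accept) :
    ∃ y, y ∈ N.accepts ∧ y ∈ N'.accepts := by
  obtain ⟨l0, l1, s, s', h0, h1, h2, h3, h4⟩ := h
  obtain ⟨m0, m1, r, r', g0, g1, g2, g3, g4⟩ := h'
  obtain ⟨y, hy1, hy2⟩ := path_two hN hN' h3 g3
  refine ⟨l0 ++ (m0 ++ (y ++ (l1 ++ m1))), ?_, ?_⟩
  · rw [DFA.mem_accepts]
    change N.evalFrom N.start _ ∈ _
    rw [DFA.evalFrom_of_append, h2, DFA.evalFrom_of_append, evalFrom_loop hN m0 g0,
      DFA.evalFrom_of_append, hy1, DFA.evalFrom_of_append, evalFrom_loop hN m1 g1]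
    exact h4
  · rw [DFA.mem_accepts]
    change N'.evalFrom N'.start _ ∈ _
    rw [DFA.evalFrom_of_append, evalFrom_loop hN' l0 h0, DFA.evalFrom_of_append, g2,
      DFA.evalFrom_of_append, hy2, DFA.evalFrom_of_append, evalFrom_loop hN' l1 h1]
    exact g4

variable [LinearOrder σ]

/-- the simulation with the letters of the second automaton -/
noncomputable def fwd2 (S : Sys α σ t) : DFA (Lt α) (St σ t) := (fwd S).comap sw

theorem fwd2_evalFrom (S : Sys α σ t) (s : St σ t) (l : List (Lt α)) :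
    (fwd2 S).evalFrom s l = (fwd S).evalFrom s (l.map sw) := by
  unfold fwd2
  rw [DFA.evalFrom_comap]

theorem fwd_step_eq {S : Sys α σ t} {s x : St σ t} {b : Lt α} (h : FS S s b x) :
    (fwd S).step s b = x := fstep_eq h

theorem fwd_loop (S : Sys α σ t) (b : Lt α) (s : St σ t) (hb : BL b) : (fwd S).step s b = s :=
  fwd_step_eq (.loop b s hb)

theorem fwd2_loop (S : Sys α σ t) (b : Lt α) (s : St σ t) (hb : AL b) : (fwd2 S).step s b = s := by
  change (fwd S).step s (sw b) = s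
  refine fwd_loop S (sw b) s ?_
  cases b <;> first | exact hb.elim | trivial

/-- the block of a transition -/
theorem block [Finite σ] (S : Sys α σ t) (τ : Fin t) : ∃ l : List (Lt α), (∀ b ∈ l, AL b) ∧
    (fwd S).evalFrom (.main (S.src τ)) (.rd (S.lab τ) :: l) = .main (S.tgt τ) := by
  obtain ⟨r, hr⟩ := exists_isLast (P := fun τ' => S.src τ' = S.src τ ∧ S.lab τ' = S.lab τ) (s := τ)
    ⟨rfl, rfl⟩
  obtain ⟨k, hk⟩ := chain_to (c1_equiv S) (fwd S) (fun τ => .ch τ) .nA
    (fun q r h => fwd_step_eq (.nch q r h)) τ r hr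
  obtain ⟨m, r', h1, h2, h3⟩ := chain_down (c2_equiv S) (fwd S) (fun τ => .fg τ) .nA
    (fun q r h => fwd_step_eq (.nfg q r h)) τ
  refine ⟨List.replicate k .nA ++ (.sA :: (List.replicate m .nA ++ [.cA (some (S.lab τ))])), ?_, ?_⟩
  · intro b hb
    rcases List.mem_append.1 hb with hb | hb
    · rw [List.eq_of_mem_replicate hb]; trivial
    rcases List.mem_cons.1 hb with hb | hb
    · rw [hb]; trivial
    rcases List.mem_append.1 hb with hb | hb
    · rw [List.eq_of_mem_replicate hb]; trivial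
    · rw [List.mem_singleton.1 hb]; trivial
  · rw [DFA.evalFrom_cons, fwd_step_eq (.rd _ _ r hr), DFA.evalFrom_of_append, hk, DFA.evalFrom_cons,
      fwd_step_eq (.sch τ), DFA.evalFrom_append_singleton, h1]
    exact fwd_step_eq (.cfg r' _ _ h2.1 h2.2 h3)

theorem path_of_run [Finite σ] {S : Sys α σ t} {p : σ} {w : List α} {q : σ} (h : Run S p w q) :
    Path (fwd S) AL w (.main p) (.main q) := by
  induction h with
  | nil => exact .nil _
  | snoc x w τ q h hw hq ih =>
    obtain ⟨l, hl, he⟩ := block S τ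
    exact .snoc x w (S.lab τ) _ _ _ l ih hl hw (by rw [he, hq])

theorem path2_of_path {S : Sys α σ t} {w : List α} {s s' : St σ t} (h : Path (fwd S) AL w s s') :
    Path (fwd2 S) BL w s s' := by
  induction h with
  | nil s => exact .nil s
  | snoc x w a s s' s'' l h hl hw he ih =>
    refine .snoc x w a _ _ _ (l.map sw) ih (map_sw_AL hl) hw ?_
    rw [fwd2_evalFrom, List.map_cons, map_sw_sw]
    exact he

/-- the beginning -/
theorem begin_ex [Finite σ] (S : Sys α σ t) {p : σ} (hp : p ∈ S.st) : ∃ l : List (Lt α),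
    (∀ b ∈ l, AL b) ∧ (fwd S).evalFrom (fwd S).start l = .main p := by
  classical
  obtain ⟨r, hr⟩ := exists_isLast (P := fun q => q ∈ S.st) (s := p) hp
  have hr' : IsLast (fun s => C3 S.st s p) r :=
    ⟨⟨fun _ => hp, fun _ => hr.1⟩, fun s hs => hr.2 s (hs.2 hp)⟩
  obtain ⟨k, hk⟩ := chain_to (c3_equiv S.st) (fwd S) (fun q => .ini q) .nA
    (fun q r h => fwd_step_eq (.nin q r h)) p r hr'
  have e : (fwd S).start = .ini r := by
    change dite _ _ _ = _
    have h' : ∃ r, IsLast (fun q => q ∈ S.st) r := ⟨r, hr⟩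
    rw [dif_pos h', isLast_unique h'.choose_spec hr]
  refine ⟨List.replicate k .nA ++ [.sA], ?_, ?_⟩
  · intro b hb
    rcases List.mem_append.1 hb with hb | hb
    · rw [List.eq_of_mem_replicate hb]; trivial
    · rw [List.mem_singleton.1 hb]; trivial
  · rw [e, DFA.evalFrom_append_singleton, hk]
    exact fwd_step_eq (.sin p)

/-- the end -/
theorem end_ex [Finite σ] (S : Sys α σ t) {q : σ} (hq : q ∈ S.ac) : ∃ l : List (Lt α),
    (∀ b ∈ l, AL b) ∧ (fwd S).evalFrom (.main q) l = .extra := by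
  obtain ⟨m, r, h1, h2, h3⟩ := chain_down (c3_equiv S.ac) (fwd S) (fun q => .fin q) .nA
    (fun q r h => fwd_step_eq (.nfn q r h)) q
  refine ⟨.eA :: (List.replicate m .nA ++ [.cA none]), ?_, ?_⟩
  · intro b hb
    rcases List.mem_cons.1 hb with hb | hb
    · rw [hb]; trivial
    rcases List.mem_append.1 hb with hb | hb
    · rw [List.eq_of_mem_replicate hb]; trivial
    · rw [List.mem_singleton.1 hb]; trivial
  · rw [DFA.evalFrom_cons, fwd_step_eq (.e q hq), DFA.evalFrom_append_singleton, h1]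
    exact fwd_step_eq (.cfn r (h2.2 hq) h3)

theorem fwd_complete [Finite σ] {S : Sys α σ t} {w : List α} (h : Acc S w) :
    ∃ l0 l1 s s', (∀ b ∈ l0, AL b) ∧ (∀ b ∈ l1, AL b) ∧ (fwd S).evalFrom (fwd S).start l0 = s ∧
      Path (fwd S) AL w s s' ∧ (fwd S).evalFrom s' l1 ∈ (fwd S).accept := by
  obtain ⟨p, hp, q, hq, hr⟩ := h
  obtain ⟨l0, h0, h0'⟩ := begin_ex S hp
  obtain ⟨l1, h1, h1'⟩ := end_ex S hq
  exact ⟨l0, l1, .main p, .main q, h0, h1, h0', path_of_run hr, h1'⟩

theorem fwd2_complete [Finite σ] {S : Sys α σ t} {w : List α} (h : Acc S w) :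
    ∃ l0 l1 s s', (∀ b ∈ l0, BL b) ∧ (∀ b ∈ l1, BL b) ∧ (fwd2 S).evalFrom (fwd2 S).start l0 = s ∧
      Path (fwd2 S) BL w s s' ∧ (fwd2 S).evalFrom s' l1 ∈ (fwd2 S).accept := by
  obtain ⟨l0, l1, s, s', h0, h1, h2, h3, h4⟩ := fwd_complete h
  refine ⟨l0.map sw, l1.map sw, s, s', map_sw_AL h0, map_sw_AL h1, ?_, path2_of_path h3, ?_⟩
  · rw [fwd2_evalFrom, map_sw_sw]; exact h2
  · rw [fwd2_evalFrom, map_sw_sw]; exact h4

theorem fwd2_sound {S : Sys α σ t} {y : List (Lt α)} (h : y ∈ (fwd2 S).accepts) : Acc S (rds y) := by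
  rw [← rds_map_sw]
  apply fwd_sound
  rw [DFA.mem_accepts] at h ⊢
  have h1 : (fwd2 S).evalFrom (fwd S).start y ∈ (fwd S).accept := h
  rw [fwd2_evalFrom] at h1
  exact h1

theorem fwd2_rev [Finite σ] (S : Sys α σ t) : RevW (fwd2 S) .dead .extra := by
  obtain ⟨h1, h2, h3, h4, h5⟩ := fwd_rev S
  exact ⟨h1, h2, h3, fun b => h4 (sw b), fun b s t h hd => h5 (sw b) s t h hd⟩

/-- the intersection -/
theorem inter_iff [Finite σ] {σ' : Type} [LinearOrder σ'] [Finite σ'] {t' : ℕ} (S : Sys α σ t)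
    (S' : Sys α σ' t') : (∃ w, Acc S w ∧ Acc S' w) ↔ ∃ y, y ∈ (fwd S).accepts ∧ y ∈ (fwd2 S').accepts :=
  ⟨fun ⟨_, h1, h2⟩ => join (fwd_loop S) (fwd2_loop S') (fwd_complete h1) (fwd2_complete h2),
    fun ⟨y, h1, h2⟩ => ⟨rds y, fwd_sound h1, fwd2_sound h2⟩⟩

end CDEN
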