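import Mathlib

/-! Reversible simulation of a nondeterministic automaton (MP_cde0c0_lc): definitions. -/

set_option autoImplicit false

namespace CDEN

/-- a nondeterministic automaton given by its `t` transitions -/
structure Sys (α σ : Type) (t : ℕ) where
  src : Fin t → σ
  lab : Fin t → α
  tgt : Fin t → σ
  st : Set σ
  ac : Set σ

/-- `w` leads from `p` to `q` -/
inductive Run {α σ : Type} {t : ℕ} (S : Sys α σ t) (p : σ) : List α → σ → Prop
  | nil : Run S p [] p
  | snoc (x w : List α) (τ : Fin t) (q : σ) (h : Run S p x (S.src τ)) (hw : w = x ++ [S.lab τ])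
      (hq : S.tgt τ = q) : Run S p w q

/-- The new letters: `rd a` reads the old letter `a`, the letters `nA`, `sA`, `eA`, `cA i` are for the first
automaton (the second one loops on them), the others for the second automaton. -/
inductive Lt (α : Type) : Type
  | rd (a : α)
  | nA
  | sA
  | eA
  | cA (i : Option α)
  | nB
  | sB
  | eB
  | cB (i : Option α)

/-- The new states: the old states `main q`; for each transition a state `ch` (it is a candidate) and a
state `fg` (it was chosen, its source is being forgotten); `ini q` and `fin q` for the choice of the initial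
state and for merging the accepting states; and three further states. -/
inductive St (σ : Type) (t : ℕ) : Type
  | main (q : σ)
  | ch (τ : Fin t)
  | fg (τ : Fin t)
  | ini (q : σ)
  | fin (q : σ)
  | extra
  | junk
  | dead

/-- `r` is the predecessor of `q` in its class -/
def IsPrv {X : Type} [LinearOrder X] (C : X → X → Prop) (q r : X) : Prop :=
  r < q ∧ C r q ∧ ∀ s, s < q → C s q → s ≤ r

/-- `r` is the last element with `P` -/
def IsLast {X : Type} [LinearOrder X] (P : X → Prop) (r : X) : Prop := P r ∧ ∀ s, P s → s ≤ r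

section order

variable {X : Type} [LinearOrder X] {C : X → X → Prop}

theorem isPrv_unique {q r r' : X} (h : IsPrv C q r) (h' : IsPrv C q r') : r = r' :=
  le_antisymm (h'.2.2 r h.1 h.2.1) (h.2.2 r' h'.1 h'.2.1)

theorem isPrv_inj (hC : Equivalence C) {q q' r : X} (h : IsPrv C q r) (h' : IsPrv C q' r) : q = q' := by
  have hc : C q q' := hC.trans (hC.symm h.2.1) h'.2.1
  rcases lt_trichotomy q q' with hlt | he | hlt
  · exact absurd (h'.2.2 q hlt hc) (not_le.2 h.1)
  · exact he
  · exact absurd (h.2.2 q' hlt (hC.symm hc)) (not_le.2 h'.1)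

theorem exists_isPrv [Finite X] {q s : X} (hs : s < q) (hc : C s q) : ∃ r, IsPrv C q r := by
  obtain ⟨r, hr, hmax⟩ := Set.exists_max_image {s | s < q ∧ C s q} id (Set.toFinite _) ⟨s, hs, hc⟩
  exact ⟨r, hr.1, hr.2, fun t ht1 ht2 => hmax t ⟨ht1, ht2⟩⟩

theorem isLast_unique {P : X → Prop} {r r' : X} (h : IsLast P r) (h' : IsLast P r') : r = r' :=
  le_antisymm (h'.2 r h.1) (h.2 r' h'.1)

theorem exists_isLast [Finite X] {P : X → Prop} {s : X} (hs : P s) : ∃ r, IsLast P r := by
  obtain ⟨r, hr, hmax⟩ := Set.exists_max_image {s | P s} id (Set.toFinite _) ⟨s, hs⟩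
  exact ⟨r, hr, fun t ht => hmax t ht⟩

theorem first_unique [Finite X] (hC : Equivalence C) {p q : X} (hc : C p q)
    (hp : ¬ ∃ r, IsPrv C p r) (hq : ¬ ∃ r, IsPrv C q r) : p = q := by
  rcases lt_trichotomy p q with h | h | h
  · exact absurd (exists_isPrv h hc) hq
  · exact h
  · exact absurd (exists_isPrv h (hC.symm hc)) hp

end order

variable {α σ : Type} {t : ℕ}

/-- same source and letter -/
def C1 (S : Sys α σ t) (τ τ' : Fin t) : Prop := S.src τ = S.src τ' ∧ S.lab τ = S.lab τ'

/-- same letter and target -/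
def C2 (S : Sys α σ t) (τ τ' : Fin t) : Prop := S.lab τ = S.lab τ' ∧ S.tgt τ = S.tgt τ'

/-- both or none in `U` -/
def C3 (U : Set σ) (q q' : σ) : Prop := q ∈ U ↔ q' ∈ U

theorem c1_equiv (S : Sys α σ t) : Equivalence (C1 S) :=
  ⟨fun _ => ⟨rfl, rfl⟩, fun h => ⟨h.1.symm, h.2.symm⟩, fun h h' => ⟨h.1.trans h'.1, h.2.trans h'.2⟩⟩

theorem c2_equiv (S : Sys α σ t) : Equivalence (C2 S) :=
  ⟨fun _ => ⟨rfl, rfl⟩, fun h => ⟨h.1.symm, h.2.symm⟩, fun h h' => ⟨h.1.trans h'.1, h.2.trans h'.2⟩⟩

theorem c3_equiv (U : Set σ) : Equivalence (C3 U) :=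
  ⟨fun _ => Iff.rfl, fun h => Iff.symm h, fun h h' => Iff.trans h h'⟩

/-- letters of the second automaton -/
def BL : Lt α → Prop
  | .nB => True
  | .sB => True
  | .eB => True
  | .cB _ => True
  | _ => False

/-- letters of the first automaton -/
def AL : Lt α → Prop
  | .nA => True
  | .sA => True
  | .eA => True
  | .cA _ => True
  | _ => False

section defs
variable [LinearOrder σ]

/-- the transitions of the simulation -/
inductive FS (S : Sys α σ t) : St σ t → Lt α → St σ t → Prop
  | rd (a : α) (q : σ) (τ : Fin t) (h : IsLast (fun τ => S.src τ = q ∧ S.lab τ = a) τ) :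
      FS S (.main q) (.rd a) (.ch τ)
  | nch (τ τ' : Fin t) (h : IsPrv (C1 S) τ τ') : FS S (.ch τ) .nA (.ch τ')
  | sch (τ : Fin t) : FS S (.ch τ) .sA (.fg τ)
  | nfg (τ τ' : Fin t) (h : IsPrv (C2 S) τ τ') : FS S (.fg τ) .nA (.fg τ')
  | cfg (τ : Fin t) (a : α) (q : σ) (ha : S.lab τ = a) (hq : S.tgt τ = q)
      (h : ¬ ∃ τ', IsPrv (C2 S) τ τ') : FS S (.fg τ) (.cA (some a)) (.main q)
  | nin (q q' : σ) (h : IsPrv (C3 S.st) q q') : FS S (.ini q) .nA (.ini q')
  | sin (q : σ) : FS S (.ini q) .sA (.main q)
  | e (q : σ) (h : q ∈ S.ac) : FS S (.main q) .eA (.fin q)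
  | nfn (q q' : σ) (h : IsPrv (C3 S.ac) q q') : FS S (.fin q) .nA (.fin q')
  | cfn (q : σ) (hq : q ∈ S.ac) (h : ¬ ∃ q', IsPrv (C3 S.ac) q q') : FS S (.fin q) (.cA none) .extra
  | loop (b : Lt α) (s : St σ t) (hb : BL b) : FS S s b s

open Classical in
/-- the step function -/
noncomputable def fstep (S : Sys α σ t) (s : St σ t) (b : Lt α) : St σ t :=
  if h : ∃ x, FS S s b x then h.choose else .dead

open Classical in
/-- the simulation -/
noncomputable def fwd (S : Sys α σ t) : DFA (Lt α) (St σ t) where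
  step := fstep S
  start := if h : ∃ r, IsLast (fun q => q ∈ S.st) r then .ini h.choose else .junk
  accept := {.extra}

theorem fs_det {S : Sys α σ t} {s x y : St σ t} {b : Lt α} (hx : FS S s b x) (hy : FS S s b y) : x = y := by
  cases hx with
  | rd a q τ h => cases hy with
    | rd _ _ τ' h' => rw [isLast_unique h h']
    | loop _ _ hb => exact hb.elim
  | nch τ τ' h => cases hy with
    | nch _ τ'' h' => rw [isPrv_unique h h']
    | loop _ _ hb => exact hb.elim
  | sch τ => cases hy with
    | sch => rfl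
    | loop _ _ hb => exact hb.elim
  | nfg τ τ' h => cases hy with
    | nfg _ τ'' h' => rw [isPrv_unique h h']
    | loop _ _ hb => exact hb.elim
  | cfg τ a q ha hq h => cases hy with
    | cfg _ _ q' ha' hq' h' => rw [← hq, ← hq']
    | loop _ _ hb => exact hb.elim
  | nin q q' h => cases hy with
    | nin _ q'' h' => rw [isPrv_unique h h']
    | loop _ _ hb => exact hb.elim
  | sin q => cases hy with
    | sin => rfl
    | loop _ _ hb => exact hb.elim
  | e q h => cases hy with
    | e => rfl
    | loop _ _ hb => exact hb.elim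
  | nfn q q' h => cases hy with
    | nfn _ q'' h' => rw [isPrv_unique h h']
    | loop _ _ hb => exact hb.elim
  | cfn q hq h => cases hy with
    | cfn => rfl
    | loop _ _ hb => exact hb.elim
  | loop b s hb => cases hy with
    | loop => rfl
    | _ => exact hb.elim

theorem fs_inj [Finite σ] {S : Sys α σ t} {s x y : St σ t} {b : Lt α} (hx : FS S x b s) (hy : FS S y b s) :
    x = y := by
  cases hx with
  | rd a q τ h => cases hy with
    | rd _ q' _ h' => rw [← h.1.1, ← h'.1.1]
    | loop _ _ hb => exact hb.elim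
  | nch τ τ' h => cases hy with
    | nch τ'' _ h' => rw [isPrv_inj (c1_equiv S) h h']
    | loop _ _ hb => exact hb.elim
  | sch τ => cases hy with
    | sch => rfl
    | loop _ _ hb => exact hb.elim
  | nfg τ τ' h => cases hy with
    | nfg τ'' _ h' => rw [isPrv_inj (c2_equiv S) h h']
    | loop _ _ hb => exact hb.elim
  | cfg τ a q ha hq h => cases hy with
    | cfg τ' _ _ ha' hq' h' =>
      rw [first_unique (c2_equiv S) (p := τ) (q := τ') ⟨ha.trans ha'.symm, hq.trans hq'.symm⟩ h h']
    | loop _ _ hb => exact hb.elim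
  | nin q q' h => cases hy with
    | nin q'' _ h' => rw [isPrv_inj (c3_equiv S.st) h h']
    | loop _ _ hb => exact hb.elim
  | sin q => cases hy with
    | sin => rfl
    | loop _ _ hb => exact hb.elim
  | e q h => cases hy with
    | e => rfl
    | loop _ _ hb => exact hb.elim
  | nfn q q' h => cases hy with
    | nfn q'' _ h' => rw [isPrv_inj (c3_equiv S.ac) h h']
    | loop _ _ hb => exact hb.elim
  | cfn q hq h => cases hy with
    | cfn q' hq' h' =>
      rw [first_unique (c3_equiv S.ac) (p := q) (q := q') ⟨fun _ => hq', fun _ => hq⟩ h h']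
    | loop _ _ hb => exact hb.elim
  | loop b s hb => cases hy with
    | loop => rfl
    | _ => exact hb.elim

theorem fstep_eq {S : Sys α σ t} {s x : St σ t} {b : Lt α} (h : FS S s b x) : fstep S s b = x := by
  classical
  have h' : ∃ x, FS S s b x := ⟨x, h⟩
  unfold fstep
  rw [dif_pos h']
  exact fs_det h'.choose_spec h

theorem fs_of_fstep {S : Sys α σ t} {s : St σ t} {b : Lt α} (hd : fstep S s b ≠ .dead) :
    FS S s b (fstep S s b) := by
  classical
  by_cases h : ∃ x, FS S s b x
  · obtain ⟨x, hx⟩ := h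
    rw [fstep_eq hx]
    exact hx
  · exact absurd (by unfold fstep; rw [dif_neg h]) hd

end defs

end CDEN
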