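import Pool.Agent.Lib.CDEN.Complete

/-! The normal form for nondeterministic automata: reversible automata over two letters. -/

set_option autoImplicit false

namespace CDEN

open CDER (Rev RevW)

/-! ### Nondeterministic automata as systems -/

section nfa

variable {α σ : Type}

/-- the transitions -/
def trans (M : NFA α σ) : Set (σ × α × σ) := {τ | τ.2.2 ∈ M.step τ.1 τ.2.1}

/-- the system of a nondeterministic automaton -/
noncomputable def sys [Finite α] [Finite σ] (M : NFA α σ) : Sys α σ (Nat.card (trans M)) where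
  src τ := ((Finite.equivFin (trans M)).symm τ).1.1
  lab τ := ((Finite.equivFin (trans M)).symm τ).1.2.1
  tgt τ := ((Finite.equivFin (trans M)).symm τ).1.2.2
  st := M.start
  ac := M.accept

theorem mem_eval_iff [Finite α] [Finite σ] (M : NFA α σ) (w : List α) : ∀ q,
    q ∈ M.eval w ↔ ∃ p ∈ M.start, Run (sys M) p w q := by
  induction w using List.reverseRecOn with
  | nil =>
    intro q
    rw [NFA.eval_nil]
    constructor
    · intro h; exact ⟨q, h, .nil⟩
    · rintro ⟨p, hp, hr⟩
      generalize hw : ([] : List α) = w at hr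
      cases hr with
      | nil => exact hp
      | snoc x _ τ _ h hw' hq => rw [← hw] at hw'; exact absurd hw' (by simp)
  | append_singleton w a ih =>
    intro q
    rw [NFA.eval_append_singleton, NFA.mem_stepSet]
    constructor
    · rintro ⟨s, hs, hq⟩
      obtain ⟨p, hp, hr⟩ := (ih s).1 hs
      have hτ : (s, a, q) ∈ trans M := hq
      have e : (Finite.equivFin (trans M)).symm (Finite.equivFin (trans M) ⟨(s, a, q), hτ⟩) =
        ⟨(s, a, q), hτ⟩ := Equiv.symm_apply_apply _ _
      refine ⟨p, hp, .snoc w _ (Finite.equivFin (trans M) ⟨(s, a, q), hτ⟩) q ?_ ?_ ?_⟩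
      · change Run (sys M) p w ((Finite.equivFin (trans M)).symm _).1.1
        rw [e]
        exact hr
      · change _ = w ++ [((Finite.equivFin (trans M)).symm _).1.2.1]
        rw [e]
      · change ((Finite.equivFin (trans M)).symm _).1.2.2 = q
        rw [e]
    · rintro ⟨p, hp, hr⟩
      generalize hw0 : w ++ [a] = w' at hr
      cases hr with
      | nil => exact absurd hw0 (by simp)
      | snoc x _ τ _ h hw hq =>
        rw [← hw0] at hw
        obtain ⟨e1, e2⟩ := List.append_inj' hw rfl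
        have e3 : a = (sys M).lab τ := by simpa using e2
        subst e1
        refine ⟨(sys M).src τ, (ih _).2 ⟨p, hp, h⟩, ?_⟩
        rw [e3, ← hq]
        exact ((Finite.equivFin (trans M)).symm τ).2

theorem acc_sys [Finite α] [Finite σ] (M : NFA α σ) (w : List α) : Acc (sys M) w ↔ w ∈ M.accepts := by
  rw [NFA.mem_accepts]
  constructor
  · rintro ⟨p, hp, q, hq, hr⟩
    exact ⟨q, hq, (mem_eval_iff M w q).2 ⟨p, hp, hr⟩⟩
  · rintro ⟨q, hq, h⟩
    obtain ⟨p, hp, hr⟩ := (mem_eval_iff M w q).1 h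
    exact ⟨p, hp, q, hq, hr⟩

end nfa

/-! ### Padding -/

section pad

variable {β S : Type} {N : ℕ}

open Classical in
/-- the same automaton with more states, the new states lead to the dead state -/
noncomputable def pad (M : DFA β S) (ι : S → Fin N) (d : S) : DFA β (Fin N) where
  step x b := if h : ∃ s, ι s = x then ι (M.step h.choose b) else ι d
  start := ι M.start
  accept := ι '' M.accept

theorem pad_step {M : DFA β S} {ι : S → Fin N} (hι : Function.Injective ι) (d s : S) (b : β) :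
    (pad M ι d).step (ι s) b = ι (M.step s b) := by
  classical
  have h : ∃ s', ι s' = ι s := ⟨s, rfl⟩
  change dite _ _ _ = _
  rw [dif_pos h, hι h.choose_spec]

theorem pad_evalFrom {M : DFA β S} {ι : S → Fin N} (hι : Function.Injective ι) (d : S) (y : List β) :
    ∀ s, (pad M ι d).evalFrom (ι s) y = ι (M.evalFrom s y) := by
  induction y with
  | nil => intro s; rfl
  | cons b y ih => intro s; rw [DFA.evalFrom_cons, DFA.evalFrom_cons, pad_step hι, ih]

theorem pad_accepts {M : DFA β S} {ι : S → Fin N} (hι : Function.Injective ι) (d : S) (y : List β) :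
    y ∈ (pad M ι d).accepts ↔ y ∈ M.accepts := by
  rw [DFA.mem_accepts, DFA.mem_accepts]
  change (pad M ι d).evalFrom (ι M.start) y ∈ ι '' M.accept ↔ _
  rw [pad_evalFrom hι]
  constructor
  · rintro ⟨s, hs, he⟩
    rw [hι he] at hs
    exact hs
  · intro h
    exact ⟨_, h, rfl⟩

theorem pad_rev {M : DFA β S} {ι : S → Fin N} (hι : Function.Injective ι) {d f : S} (h : RevW M d f) :
    RevW (pad M ι d) (ι d) (ι f) := by
  classical
  obtain ⟨h1, h2, h3, h4, h5⟩ := h
  refine ⟨fun h => h1 (hι h), fun h => h2 (hι h), ?_, ?_, ?_⟩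
  · change ι '' M.accept = {ι f}
    rw [h3, Set.image_singleton]
  · intro b
    rw [pad_step hι, h4]
  · have key : ∀ b x, (pad M ι d).step x b ≠ ι d → ∃ s, ι s = x := by
      intro b x hx
      by_contra hcon
      apply hx
      change dite _ _ _ = _
      rw [dif_neg hcon]
    intro b x y hxy hd
    obtain ⟨s, rfl⟩ := key b x hd
    obtain ⟨s', rfl⟩ := key b y (by rw [← hxy]; exact hd)
    rw [pad_step hι, pad_step hι] at hxy
    rw [pad_step hι] at hd
    rw [h5 b s s' (hι hxy) (fun h => hd (by rw [h]))]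

end pad

/-! ### Counting -/

/-- states as a sum type -/
def stEquiv (σ : Type) (t : ℕ) : St σ t ≃ ((σ × Fin 3) ⊕ (Fin t × Bool)) ⊕ Fin 3 where
  toFun
    | .main q => .inl (.inl (q, 0))
    | .ini q => .inl (.inl (q, 1))
    | .fin q => .inl (.inl (q, 2))
    | .ch τ => .inl (.inr (τ, true))
    | .fg τ => .inl (.inr (τ, false))
    | .extra => .inr 0
    | .junk => .inr 1
    | .dead => .inr 2
  invFun
    | .inl (.inl (q, 0)) => .main q
    | .inl (.inl (q, 1)) => .ini q
    | .inl (.inl (q, 2)) => .fin q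
    | .inl (.inr (τ, true)) => .ch τ
    | .inl (.inr (τ, false)) => .fg τ
    | .inr 0 => .extra
    | .inr 1 => .junk
    | .inr 2 => .dead
  left_inv s := by cases s <;> rfl
  right_inv s := by
    rcases s with (⟨q, i⟩ | ⟨τ, b⟩) | i
    · fin_cases i <;> rfl
    · cases b <;> rfl
    · fin_cases i <;> rfl

/-- letters as a sum type -/
def ltEquiv (α : Type) : Lt α ≃ (α ⊕ Option α ⊕ Option α) ⊕ (Bool × Fin 3) where
  toFun
    | .rd a => .inl (.inl a)
    | .cA i => .inl (.inr (.inl i))
    | .cB i => .inl (.inr (.inr i))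
    | .nA => .inr (true, 0)
    | .sA => .inr (true, 1)
    | .eA => .inr (true, 2)
    | .nB => .inr (false, 0)
    | .sB => .inr (false, 1)
    | .eB => .inr (false, 2)
  invFun
    | .inl (.inl a) => .rd a
    | .inl (.inr (.inl i)) => .cA i
    | .inl (.inr (.inr i)) => .cB i
    | .inr (true, 0) => .nA
    | .inr (true, 1) => .sA
    | .inr (true, 2) => .eA
    | .inr (false, 0) => .nB
    | .inr (false, 1) => .sB
    | .inr (false, 2) => .eB
  left_inv s := by cases s <;> rfl
  right_inv s := by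
    rcases s with (a | i | i) | ⟨b, c⟩
    · rfl
    · rfl
    · rfl
    · cases b <;> fin_cases c <;> rfl

/-- states over two letters as a sum type -/
def bstEquiv (σ : Type) (K : ℕ) : CDER.BSt σ K ≃ Option (σ × Fin K ⊕ σ × Fin K) where
  toFun
    | .up s j => some (.inl (s, j))
    | .down s j => some (.inr (s, j))
    | .dead => none
  invFun
    | some (.inl (s, j)) => .up s j
    | some (.inr (s, j)) => .down s j
    | none => .dead
  left_inv s := by cases s <;> rfl
  right_inv s := by rcases s with _ | ⟨s, j⟩ | ⟨s, j⟩ <;> rfl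

/-- numbering of the letters -/
noncomputable def eL (k : ℕ) : Lt (Fin k) ≃ Fin (3 * k + 8) :=
  (ltEquiv (Fin k)).trans (Fintype.equivFinOfCardEq (by
    simp only [Fintype.card_sum, Fintype.card_option, Fintype.card_fin, Fintype.card_prod, Fintype.card_bool]
    ring))

/-- number of states -/
def size (k n t : ℕ) : ℕ := 2 * (3 * k + 8) * (3 * n + 2 * t + 3) + 1

/-- numbering of the states -/
noncomputable def eS (k n t : ℕ) : CDER.BSt (St (Fin n) t) (3 * k + 8) ≃ Fin (size k n t) :=
  ((bstEquiv _ _).trans (Equiv.optionCongr (Equiv.sumCongr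
    (Equiv.prodCongr (stEquiv _ _) (Equiv.refl _)) (Equiv.prodCongr (stEquiv _ _) (Equiv.refl _))))).trans
    (Fintype.equivFinOfCardEq (by
      simp only [Fintype.card_option, Fintype.card_sum, Fintype.card_prod, Fintype.card_fin, Fintype.card_bool,
        size]
      ring))

theorem size_mono (k n : ℕ) {t t' : ℕ} (h : t ≤ t') : size k n t ≤ size k n t' := by
  unfold size
  gcongr

instance nz (k : ℕ) : NeZero (3 * k + 8) := ⟨by omega⟩

/-- the numbering into a larger set -/
noncomputable def emb (k n : ℕ) {t t' : ℕ} (h : t ≤ t') (s : CDER.BSt (St (Fin n) t) (3 * k + 8)) :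
    Fin (size k n t') := Fin.castLE (size_mono k n h) (eS k n t s)

theorem emb_inj (k n : ℕ) {t t' : ℕ} (h : t ≤ t') : Function.Injective (emb k n h) :=
  (Fin.castLE_injective _).comp (eS k n t).injective

theorem revW_comap {β β' ρ : Type} {M : DFA β ρ} {d f : ρ} (h : RevW M d f) (e : β' → β) :
    RevW (M.comap e) d f :=
  ⟨h.1, h.2.1, h.2.2.1, fun b => h.2.2.2.1 (e b), fun b s t h1 h2 => h.2.2.2.2 (e b) s t h1 h2⟩

/-- the transformation of an automaton over the new letters -/
noncomputable def tr (k n : ℕ) {t t' : ℕ} (h : t ≤ t') (X : DFA (Lt (Fin k)) (St (Fin n) t)) :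
    DFA Bool (Fin (size k n t')) :=
  pad (CDER.bin (X.comap (eL k).symm) (fun s => s = .dead)) (emb k n h) .dead

theorem tr_rev {k n t t' : ℕ} (h : t ≤ t') {X : DFA (Lt (Fin k)) (St (Fin n) t)} {f : St (Fin n) t}
    (hX : RevW X .dead f) : Rev (tr k n h X) := by
  have h' := revW_comap hX (eL k).symm
  exact ⟨_, _, pad_rev (emb_inj k n h) (CDER.bin_revW h'.2.2.1 h'.2.2.2.2)⟩

theorem tr_iff {k n m t t' u u' : ℕ} (ht : t ≤ t') (hu : u ≤ u') {X : DFA (Lt (Fin k)) (St (Fin n) t)}
    {Y : DFA (Lt (Fin k)) (St (Fin m) u)} {f : St (Fin n) t} {f' : St (Fin m) u}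
    (hX : RevW X .dead f) (hY : RevW Y .dead f') :
    (∃ y, y ∈ X.accepts ∧ y ∈ Y.accepts) ↔
      ∃ z, z ∈ (tr k n ht X).accepts ∧ z ∈ (tr k m hu Y).accepts := by
  have hX' := revW_comap hX (eL k).symm
  have hY' := revW_comap hY (eL k).symm
  have h := CDER.bin_iff (M := X.comap (eL k).symm) (N := Y.comap (eL k).symm)
    (d := .dead) (d' := .dead) ⟨hX'.2.1, hX'.2.2.1, hX'.2.2.2.1⟩ ⟨hY'.2.1, hY'.2.2.1, hY'.2.2.2.1⟩
  have h2 : (∃ z, z ∈ (tr k n ht X).accepts ∧ z ∈ (tr k m hu Y).accepts) ↔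
      ∃ z, z ∈ (CDER.bin (X.comap (eL k).symm) (fun s => s = .dead)).accepts ∧
        z ∈ (CDER.bin (Y.comap (eL k).symm) (fun s => s = .dead)).accepts := by
    constructor
    · rintro ⟨z, h1, h2⟩
      exact ⟨z, (pad_accepts (emb_inj k n ht) _ z).1 h1, (pad_accepts (emb_inj k m hu) _ z).1 h2⟩
    · rintro ⟨z, h1, h2⟩
      exact ⟨z, (pad_accepts (emb_inj k n ht) _ z).2 h1, (pad_accepts (emb_inj k m hu) _ z).2 h2⟩
  rw [h2, ← h, DFA.accepts_comap, DFA.accepts_comap]
  constructor
  · rintro ⟨y, h1, h2⟩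
    have e : List.map (eL k).symm (List.map (eL k) y) = y := by simp
    refine ⟨y.map (eL k), ?_, ?_⟩
    · change List.map (eL k).symm (List.map (eL k) y) ∈ X.accepts
      rw [e]; exact h1
    · change List.map (eL k).symm (List.map (eL k) y) ∈ Y.accepts
      rw [e]; exact h2
  · rintro ⟨y, h1, h2⟩
    exact ⟨_, h1, h2⟩

/-- number of transitions -/
noncomputable def numTrans {α σ : Type} (M : NFA α σ) : ℕ := (trans M).ncard

theorem numTrans_reverse {α σ : Type} (M : NFA α σ) : numTrans M.reverse = numTrans M := by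
  unfold numTrans
  rw [← Nat.card_coe_set_eq, ← Nat.card_coe_set_eq]
  refine Nat.card_congr ⟨fun τ => ⟨(τ.1.2.2, τ.1.2.1, τ.1.1), τ.2⟩,
    fun τ => ⟨(τ.1.2.2, τ.1.2.1, τ.1.1), τ.2⟩, fun τ => rfl, fun τ => rfl⟩

theorem numTrans_toNFA {k n : ℕ} (A : DFA (Fin k) (Fin n)) : numTrans A.toNFA ≤ k * n := by
  unfold numTrans
  have h : trans A.toNFA = (fun p : Fin n × Fin k => (p.1, p.2, A.step p.1 p.2)) '' Set.univ := by
    ext ⟨s, a, q⟩
    constructor
    · intro h
      have h' : q = A.step s a := h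
      exact ⟨(s, a), trivial, by rw [h']⟩
    · rintro ⟨⟨s', a'⟩, _, h⟩
      have h' : q = A.step s a := by
        simp only [Prod.mk.injEq] at h
        rw [← h.1, ← h.2.1, ← h.2.2]
      exact h'
  rw [h]
  refine (Set.ncard_image_le (Set.toFinite _)).trans ?_
  rw [Set.ncard_univ]
  simp [Nat.mul_comm]

/-- first automaton -/
noncomputable def F (k n t : ℕ) (A : NFA (Fin k) (Fin n)) : DFA Bool (Fin (size k n t)) :=
  if h : Nat.card (trans A) ≤ t then tr k n h (fwd (sys A))
  else ⟨fun _ _ => ⟨0, Nat.succ_pos _⟩, ⟨0, Nat.succ_pos _⟩, ∅⟩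

/-- second automaton, for the intersection -/
noncomputable def H (k n t : ℕ) (A : NFA (Fin k) (Fin n)) : DFA Bool (Fin (size k n t)) :=
  if h : Nat.card (trans A) ≤ t then tr k n h (fwd2 (sys A))
  else ⟨fun _ _ => ⟨0, Nat.succ_pos _⟩, ⟨0, Nat.succ_pos _⟩, ∅⟩

theorem F_rev {k n t : ℕ} {A : NFA (Fin k) (Fin n)} (h : numTrans A ≤ t) : Rev (F k n t A) := by
  have h' : Nat.card (trans A) ≤ t := by rw [Nat.card_coe_set_eq]; exact h
  unfold F
  rw [dif_pos h']
  exact tr_rev h' (fwd_rev _)

theorem H_rev {k n t : ℕ} {A : NFA (Fin k) (Fin n)} (h : numTrans A ≤ t) : Rev (H k n t A) := by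
  have h' : Nat.card (trans A) ≤ t := by rw [Nat.card_coe_set_eq]; exact h
  unfold H
  rw [dif_pos h']
  exact tr_rev h' (fwd2_rev _)

theorem FH_iff {k n t m u : ℕ} {A : NFA (Fin k) (Fin n)} {B : NFA (Fin k) (Fin m)}
    (hA : numTrans A ≤ t) (hB : numTrans B ≤ u) : (∃ x, x ∈ A.accepts ∧ x ∈ B.accepts) ↔
      ∃ y, y ∈ (F k n t A).accepts ∧ y ∈ (H k m u B).accepts := by
  have hA' : Nat.card (trans A) ≤ t := by rw [Nat.card_coe_set_eq]; exact hA
  have hB' : Nat.card (trans B) ≤ u := by rw [Nat.card_coe_set_eq]; exact hB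
  unfold F H
  rw [dif_pos hA', dif_pos hB', ← tr_iff hA' hB' (fwd_rev _) (fwd2_rev _), ← inter_iff]
  simp only [acc_sys]

/-- the normal form -/
theorem normalForm (k : ℕ) :
    ∃ (F G H : (n t : ℕ) → NFA (Fin k) (Fin n) → DFA Bool (Fin (size k n t)))
      (R : (N : ℕ) → DFA Bool (Fin N) → DFA Bool (Fin N)),
      (∀ n t (A : NFA (Fin k) (Fin n)), numTrans A ≤ t →
        Rev (F n t A) ∧ Rev (G n t A) ∧ Rev (H n t A)) ∧
      (∀ n t m u (A : NFA (Fin k) (Fin n)) (B : NFA (Fin k) (Fin m)), numTrans A ≤ t → numTrans B ≤ u →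
        ((∃ x, x ∈ A.accepts ∧ x.reverse ∈ B.accepts) ↔
          ∃ y, y ∈ (F n t A).accepts ∧ y ∈ (G m u B).accepts) ∧
        ((∃ x, x ∈ A.accepts ∧ x ∈ B.accepts) ↔
          ∃ y, y ∈ (F n t A).accepts ∧ y ∈ (H m u B).accepts)) ∧
      (∀ N (M : DFA Bool (Fin N)), Rev M → Rev (R N M) ∧
        ∀ y, y ∈ (R N M).accepts ↔ y.reverse ∈ M.accepts) ∧
      (∀ n (A : DFA (Fin k) (Fin n)), numTrans A.toNFA ≤ k * n ∧ A.toNFA.accepts = A.accepts) := by
  classical
  refine ⟨fun n t A => F k n t A, fun n t A => H k n t A.reverse, fun n t A => H k n t A,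
    fun N M => if h : Rev M then (CDER.reversal M h).choose else M, ?_, ?_, ?_, ?_⟩
  · intro n t A hA
    refine ⟨F_rev hA, H_rev ?_, H_rev hA⟩
    rw [numTrans_reverse]
    exact hA
  · intro n t m u A B hA hB
    refine ⟨?_, FH_iff hA hB⟩
    have hB' : numTrans B.reverse ≤ u := by
      rw [numTrans_reverse]
      exact hB
    have h := FH_iff hA hB'
    simp only [NFA.mem_accepts_reverse] at h
    exact h
  · intro N M hM
    have e : (if h : Rev M then (CDER.reversal M h).choose else M) = (CDER.reversal M hM).choose :=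
      dif_pos hM
    change Rev (if h : Rev M then (CDER.reversal M h).choose else M) ∧
      ∀ y, y ∈ (if h : Rev M then (CDER.reversal M h).choose else M).accepts ↔ _
    rw [e]
    exact (CDER.reversal M hM).choose_spec
  · intro n A
    exact ⟨numTrans_toNFA A, DFA.toNFA_correct A⟩

end CDEN
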