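import Pool.Agent.Lib.CDEN.Defs
import Pool.Agent.Lib.CDER.Bin

/-! Reversibility and soundness of the simulation. -/

set_option autoImplicit false

namespace CDEN

open CDER (Rev RevW)

variable {α σ : Type} {t : ℕ}

/-- the old letter of a new letter -/
def rd1 : Lt α → List α
  | .rd a => [a]
  | _ => []

/-- the old letters read -/
def rds (l : List (Lt α)) : List α := l.flatMap rd1

theorem rds_append_singleton (l : List (Lt α)) (b : Lt α) : rds (l ++ [b]) = rds l ++ rd1 b := by
  simp [rds]

theorem rd1_BL {b : Lt α} (h : BL b) : rd1 b = [] := by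
  cases b <;> first | rfl | exact h.elim

/-- acceptance -/
def Acc (S : Sys α σ t) (w : List α) : Prop := ∃ p ∈ S.st, ∃ q ∈ S.ac, Run S p w q

/-- invariant of the simulation -/
def FI (S : Sys α σ t) (w : List α) : St σ t → Prop
  | .main q => ∃ p ∈ S.st, Run S p w q
  | .ch τ => ∃ p ∈ S.st, ∃ x, w = x ++ [S.lab τ] ∧ Run S p x (S.src τ)
  | .fg τ => ∃ p ∈ S.st, Run S p w (S.tgt τ)
  | .ini q => q ∈ S.st ∧ w = []
  | .fin q => q ∈ S.ac ∧ Acc S w
  | .extra => Acc S w
  | .junk => True
  | .dead => True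

variable [LinearOrder σ]

theorem fwd_rev [Finite σ] (S : Sys α σ t) : RevW (fwd S) .dead .extra := by
  classical
  refine ⟨?_, ?_, rfl, ?_, ?_⟩
  · intro h
    change _ = dite _ _ _ at h
    split_ifs at h
  · intro h; cases h
  · intro b
    change fstep S .dead b = .dead
    by_contra hcon
    have h := fs_of_fstep hcon
    generalize hx : fstep S .dead b = x at h hcon
    cases h with
    | loop _ _ _ => exact hcon rfl
  · intro b s t' h hd
    change fstep S s b = fstep S t' b at h
    change fstep S s b ≠ .dead at hd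
    have h1 := fs_of_fstep hd
    have h2 := fs_of_fstep (S := S) (s := t') (b := b) (by rw [← h]; exact hd)
    rw [h] at h1
    exact fs_inj h1 h2

theorem fi_step {S : Sys α σ t} {w : List α} {s x : St σ t} {b : Lt α} (h : FS S s b x)
    (hs : FI S w s) : FI S (w ++ rd1 b) x := by
  cases h with
  | rd a q τ h =>
    obtain ⟨p, hp, hr⟩ := hs
    refine ⟨p, hp, w, ?_, ?_⟩
    · rw [h.1.2]; rfl
    · rw [h.1.1]; exact hr
  | nch τ τ' h =>
    obtain ⟨p, hp, y, hy, hr⟩ := hs
    refine ⟨p, hp, y, ?_, ?_⟩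
    · change w ++ [] = _
      rw [List.append_nil, hy, h.2.1.2]
    · rw [h.2.1.1]; exact hr
  | sch τ =>
    obtain ⟨p, hp, y, hy, hr⟩ := hs
    refine ⟨p, hp, ?_⟩
    change Run S p (w ++ []) _
    rw [List.append_nil]
    exact .snoc y w τ _ hr hy rfl
  | nfg τ τ' h =>
    obtain ⟨p, hp, hr⟩ := hs
    refine ⟨p, hp, ?_⟩
    change Run S p (w ++ []) _
    rw [List.append_nil, h.2.1.2]
    exact hr
  | cfg τ a q ha hq h =>
    obtain ⟨p, hp, hr⟩ := hs
    refine ⟨p, hp, ?_⟩
    change Run S p (w ++ []) _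
    rw [List.append_nil, ← hq]
    exact hr
  | nin q q' h =>
    obtain ⟨hq, hw⟩ := hs
    exact ⟨h.2.1.2 hq, by change w ++ [] = []; rw [List.append_nil, hw]⟩
  | sin q =>
    obtain ⟨hq, hw⟩ := hs
    refine ⟨q, hq, ?_⟩
    change Run S q (w ++ []) q
    rw [List.append_nil, hw]
    exact .nil
  | e q h =>
    obtain ⟨p, hp, hr⟩ := hs
    refine ⟨h, ?_⟩
    change Acc S (w ++ [])
    rw [List.append_nil]
    exact ⟨p, hp, q, h, hr⟩
  | nfn q q' h =>
    obtain ⟨hq, ha⟩ := hs
    refine ⟨h.2.1.2 hq, ?_⟩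
    change Acc S (w ++ [])
    rw [List.append_nil]
    exact ha
  | cfn q hq h =>
    change Acc S (w ++ [])
    rw [List.append_nil]
    exact hs.2
  | loop b s hb => rw [rd1_BL hb, List.append_nil]; exact hs

theorem fi_eval (S : Sys α σ t) (l : List (Lt α)) : FI S (rds l) ((fwd S).eval l) := by
  classical
  induction l using List.reverseRecOn with
  | nil =>
    change FI S [] (dite _ _ _)
    split_ifs with h
    · exact ⟨h.choose_spec.1, rfl⟩
    · trivial
  | append_singleton l b ih =>
    rw [DFA.eval_append_singleton, rds_append_singleton]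
    by_cases hd : fstep S ((fwd S).eval l) b = .dead
    · change FI S _ (fstep S _ b)
      rw [hd]
      trivial
    · exact fi_step (fs_of_fstep hd) ih

theorem fwd_sound {S : Sys α σ t} {y : List (Lt α)} (h : y ∈ (fwd S).accepts) : Acc S (rds y) := by
  rw [DFA.mem_accepts] at h
  have h1 : (fwd S).eval y = .extra := h
  have h2 := fi_eval S y
  rw [h1] at h2
  exact h2

end CDEN
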